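import Pool.Agent.V5helper92.WC.Sign

/-!
# The sign conjecture for the varieties which are built from its known cases

`k` is a perfect field, `T` consists of the category of Chow motives over `k` with rational
coefficients, of the motives `h X` of the smooth proper schemes `X` over `k`, and of the weight complexes
`W X` of all schemes `X` over `k` (Gillet and Soulé), `D` of the tensor products. `H` is the de Rham
cohomology or the rational crystalline cohomology, as a functor on the motives; `CPlus H M` is the sign
conjecture `C⁺` for the motive `M`, for `M = h X` it is the statement `C⁺(X)` of the problem.

For a class `S` of schemes over `k`, the schemes which are *built from schemes of dimension at most `d` and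
from `S`* form the smallest class `BuiltFrom k d S` of schemes over `k` which contains `S` and the separated
schemes of finite type of dimension at most `d` and which is stable under isomorphisms, closed-open
decompositions (two of the three schemes are in the class, then so is the third), affine bundles of
Jouanolou's type, the passage from `X × 𝔾_m` to `X`, products of affine schemes, and the passage from `Y`
to `X` for finite free coverings `Y → X` of affine schemes.

Theorem. (1) Let `d ≥ 1`. The sign conjecture for all smooth proper schemes over `k` of dimension at most
`d` is equivalent to the following statement: for every class `S` of smooth proper schemes which satisfy
the sign conjecture, all smooth proper schemes which are built from schemes of dimension at most `d`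
and from `S` satisfy the sign conjecture, too.
(2) All smooth proper schemes which are built from surfaces, abelian varieties, smooth projective
set-theoretic complete intersections, and the hypersurfaces `f = 1`, `f` any smooth form, satisfy the sign
conjecture. The characteristic and the dimension are arbitrary.
(3) The class `BuiltFrom k d S`, `d ≥ 1`, is closed under preimages: it contains `F⁻¹(Z)` (hence also its
complement) for all closed subschemes `Z` of dimension at most `d` of affine spaces and all maps
`F = f_1 × ⋯ × f_m` given by polynomials `f_i` in disjoint sets of variables which are homogeneous of
degrees `e_i ≠ 0` for some integer weights, if the hypersurfaces `f_i = 1` are in the class.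

So the smooth proper schemes with a stratification by schemes `F⁻¹(Z)`, `dim Z ≤ 2`, with arbitrary smooth
forms `f_i` satisfy the sign conjecture.

Proof. The schemes whose weight complex lies in the thick subcategory generated by the motives which
satisfy the sign conjecture contain the schemes of dimension at most `d` (alterations), and they are
closed under all operations in the definition of `BuiltFrom k d S`: the class of motives is closed under
tensor products, so the thick subcategory is closed under tensor products. A motive in degree zero which
lies in the thick subcategory generated by a class closed under sums and summands is in the class. The
case of surfaces is due to helper94.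
-/

set_option autoImplicit false

open CategoryTheory AlgebraicGeometry
open Pool.Agent.Y116.UV Pool.Agent.V5helper77.GW Pool.Agent.V5helper48.WC
  Pool.Agent.V5helper94.SV Pool.Agent.V5helper92.WC

namespace Pool.Agent.Results.MP_56c18a_ag.BuiltFromKnownCases

/-- **The sign conjecture for the varieties which are built from its known cases.** Let `k` be a perfect
field.

(1) For `d ≥ 1` the following are equivalent: the sign conjecture for all smooth proper schemes over `k`
of dimension at most `d`; for every class `S` of smooth proper schemes with the sign conjecture, the
sign conjecture for all smooth proper schemes which are built from schemes of dimension at most `d` and
from `S`; the analogous statement for weight complexes of arbitrary schemes.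
(2) The weight complexes of all schemes which are built from schemes of dimension at most two and from
the known cases (abelian varieties, set-theoretic complete intersections, `f = 1` for smooth forms `f`)
are built from motives which satisfy the sign conjecture, and all such smooth proper schemes satisfy the
sign conjecture.
(3) The class of the schemes which are built from schemes of dimension at most `d` and from a class `S`
is closed under preimages of schemes of dimension at most `d`. -/
theorem result {k : Type} [Field k] [PerfectField k] (hA : DeJong k) (T : ChowData k)
    (hT : IsChowTheory IsSmProper T) (ht : HasTransfer T) {D : TensorData T}
    (hD : IsTensorChow D) {F : Type} [Field F] (H : Cohomology T F) (hH : IsCohomology H)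
    (hK : HasKunneth H D) (hC : SignCases H) :
    (∀ d : ℕ, 1 ≤ d →
      ((∀ X : Sch k, IsSmProper X → topologicalKrullDim X.left ≤ d → CPlus H (T.h X)) ↔
        SignSmooth H d) ∧
      ((∀ X : Sch k, IsSmProper X → topologicalKrullDim X.left ≤ d → CPlus H (T.h X)) ↔
        SignBuilt H d)) ∧
    ((∀ X : Sch k, BuiltFrom k 2 (SignKnown k) X → T.Built (CPlus H) X) ∧
      ∀ X : Sch k, IsSmProper X → BuiltFrom k 2 (SignKnown k) X → CPlus H (T.h X)) ∧
    ∀ (d : ℕ) (S : Sch k → Prop), 1 ≤ d → Preimages k d (BuiltFrom k d S) :=
  ⟨fun _ hd => sign_iff hA hT ht hD hH hK hd, sign_known hA hT ht hD hH hK hC,
    fun _ _ hd => preimages_built hd⟩

end Pool.Agent.Results.MP_56c18a_ag.BuiltFromKnownCases
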