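import Pool.Agent.V5helper92.VC.CMain

/-!
# The sign conjecture for linear sections

Let `X` be a smooth projective variety of dimension `n`, `D` a divisor with hard Lefschetz,
`ξ` its class, `i : Y ⟶ X` a smooth linear section of dimension `r` (that is, `i_* [Y] = ξ ^ (n - r)`
and the weak Lefschetz theorem holds), `c = n - r`. We compare the projector onto the cohomology of `Y`
in the degrees `j ≢ r` modulo `2` (the sign conjecture for `Y` says that it is algebraic) with
the operator `ξ ^ c` on `X`.

1. This projector of `Y` is the restriction to `Y × Y` of an algebraic cycle on `X × X` if and only if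
`ξ ^ c` is regular (in the sense of von Neumann) in the degrees of this parity: there is an algebraic
correspondence `Γ` of `X` with `ξ ^ c Γ ξ ^ c = ξ ^ c` on `H^j(X)` for `j ≢ r`, and `= 0` on `H^j(X)` for
`j ≡ r` modulo `2`. In this case one cycle on `X × X` works for all linear sections of dimension `r`.

2. Let `Y` behave like a very general section: there are vanishing classes `≠ 0`, and all
algebraic classes of codimension `r` on `Y × Y` are combinations of the diagonal and of restrictions of
algebraic classes on `X × X`. Then `C⁺(Y)` is equivalent to the condition on `X` in 1. If it holds then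
some cycle of codimension `r` on `X × X` maps `ξ ^ c x` to `x` for `x` in `H^j(X)`, `j < r`, `j ≢ r`, and
to zero for `j ≤ r`, `j ≡ r`; and for `2 p < r`, `r` odd, a class `α` in `H^(2p)(X)` with `ξ ^ c α`
algebraic is algebraic.
-/

set_option autoImplicit false

universe u v

namespace Pool.Agent.Results.MP_56c18a_ag.LinearSections

open CategoryTheory Pool.Agent.V5helper92.VC Pool.Agent.H914 Pool.Agent.H914.VarClass
  Pool.Agent.H914.VarClass.Obj Pool.Agent.H914.WeilCohomology Pool.Agent.H447 Pool.Agent.N190.Lin

/-- **The sign conjecture for linear sections.** -/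
theorem result {k : Type u} [Field k] {𝒱 : VarClass k} {ops : CycleOps 𝒱}
    (W : WeilCohomology.{u, v} ops) {X Y : 𝒱.Obj} {D : X.Cycles} (hD : X.IsCyc 1 D)
    (hHL : HardLefschetz W X D) (i : Y ⟶ X) (hs : IsLinearSection W D i) :
    List.TFAE [SignRegular W X D (X.dim - Y.dim), SignRestricted W i,
      SignRestrictedAll W X D Y.dim] ∧
    (IsGeneral W i → (SignStd W Y ↔ SignRegular W X D (X.dim - Y.dim)) ∧
      (SignStd W Y → ParityInverse W X D Y.dim ∧ (Odd Y.dim → AlgebraicBelow W X D Y.dim))) :=
  ⟨local_tfae hs hD hHL, fun hg => ⟨sign_general hs hD hHL hg, local_general hs hD hHL hg⟩⟩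

end Pool.Agent.Results.MP_56c18a_ag.LinearSections
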