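import Pool.Agent.V5helper92.VC.CClass

/-!
# The sign conjecture and one step of the Lefschetz operator

Let `pol` be a class of polarizations on the varieties of the class `𝒱` (for instance the ample
divisors), with hard Lefschetz and closed under the product with the projective line. For `(X, D)`
let `n = dim X` and let `ξ` be the class of `D`.

1. The sign conjecture holds for all varieties of the class if for all `(X, D)` with `n` odd (or: for
all `(X, D)` with `n ≥ 1` even) some linear combination `Γ` of algebraic correspondences of degree `-2`
of `X` is such that `Γ ξ` is injective on `H^j(X)` for `j ≤ n - 2`, `j ≡ n` modulo `2`, and nilpotent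
on `H^(n - 1)(X)`.

2. Suppose that a multiple of `D` has linear sections of all dimensions `1 ≤ r < n` which behave like
very general ones. Then the condition in 1 (for odd `n`, or for even `n`) is equivalent to the sign
conjecture for all varieties, and also to each of the following statements, which are stronger for one
variety: for all `(X, D)` some algebraic correspondence `Γ` of degree `-2` with rational coefficients
satisfies `Γ ξ = 1` on `H^j(X)` for `j ≤ n - 2`, `j ≡ n`, and `Γ ξ = 0` on `H^(n - 1)(X)`; for all
`(X, D)` and `c ≤ n` there is an algebraic correspondence `Γ` with `ξ ^ c Γ ξ ^ c = ξ ^ c` on `H^j(X)` for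
`j ≢ n - c` and `= 0` for `j ≡ n - c` modulo `2`.
-/

set_option autoImplicit false

universe u v

namespace Pool.Agent.Results.MP_56c18a_ag.OneStepLefschetz

open CategoryTheory Pool.Agent.V5helper92.VC Pool.Agent.H914 Pool.Agent.H914.VarClass
  Pool.Agent.H914.VarClass.Obj Pool.Agent.H914.WeilCohomology Pool.Agent.H447

/-- **The sign conjecture and one step of the Lefschetz operator.** -/
theorem result {k : Type u} [Field k] {𝒱 : VarClass k} {ops : CycleOps 𝒱}
    (W : WeilCohomology.{u, v} ops) (pol : ∀ X : 𝒱.Obj, X.Cycles → Prop) (Pr : ℕ → 𝒱.Obj)
    (h : ∀ m, (Pr m).Cycles) (hP : PolClass W pol Pr h) :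
    ((StepOdd W pol ∨ StepEven W pol) → ∀ X, SignStd W X) ∧
    (HasSections W pol → List.TFAE [
      ∀ X, SignStd W X, RegularAll W pol, StepAll W pol, StepOdd W pol, StepEven W pol]) :=
  ⟨sign_of_step hP, class_tfae hP⟩

end Pool.Agent.Results.MP_56c18a_ag.OneStepLefschetz
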