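import Pool.Agent.V5helper48.WC.Sign

/-!
# The sign conjecture, weight complexes and trilinear forms

`k` is a perfect field, `T` consists of the category of Chow motives over `k` with rational
coefficients, of the motives `h X` of the smooth proper schemes `X` over `k`, and of the weight complexes
`W X` of all schemes `X` over `k` (Gillet and Soulé): in characteristic zero, for `X` smooth with a smooth
compactification `Y` and boundary `D_1 ∪ ⋯ ∪ D_s` with normal crossings, `W X` is the complex
`h Y → ⊕ h D_i → ⊕ h (D_i ∩ D_j) → ⋯`. `H` is the de Rham cohomology or the rational crystalline
cohomology, as a functor on the motives; `CPlus H M` is the sign conjecture `C⁺` for the motive `M`,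
for `M = h X` it is the statement `C⁺(X)` of the problem.
`T.Built S X` says that `W X` lies in the thick subcategory generated by the class `S` of motives; here
`S` is the class of all motives which satisfy the sign conjecture.

Theorem. Let `k` be a perfect field. For each `n` the following statements are equivalent:

* `C⁺(X)` holds for all smooth proper schemes over `k` of dimension at most `n`;
* the weight complexes of all schemes over `k` of dimension at most `n` are built from motives which
  satisfy the sign conjecture;
* for all `a, b, c`, one of them at most `n + 2`, and all trilinear forms `R` in `a + b + c` variables with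
  coefficients in `k`, the weight complex of the smooth affine cubic `R(x, y, z) = 1` is built from
  motives which satisfy the sign conjecture.

The last statement is proved for the trilinear forms with a block of at most four variables (as the
sign conjecture is known in dimension at most two); for threefolds the question is about the cubics
with a block of five variables. For `k = ℚ` it is enough to take all coefficients equal to `0` or `1`:
`C⁺(X)` holds for all smooth proper schemes over `ℚ` (in particular for all smooth proper
varieties over number fields, considered as schemes over `ℚ`) if and only if for each tripartite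
hypergraph `H` the weight complex of the cubic `∑_{(i, j, l) ∈ H} x_i y_j z_l = 1` is built from motives
which satisfy the sign conjecture.

Proof. A motive which (as a complex in degree zero) lies in the thick subcategory generated by a class
`S` closed under direct sums and summands lies in `S`: the functors `Hom(M, -) / (morphisms which factor
through S)` are additive, so they extend to complexes, and the objects which they make acyclic form a
thick subcategory. The class of the schemes whose weight complex is built from `S` is closed
under the operations used in the universality of the cubics: decompositions into a closed and an open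
part in all three directions, torsors under affine spaces, and products with the multiplicative group;
the smooth proper varieties of dimension at most `n` generate all schemes of dimension at most `n` by
de Jong's alterations and transfers.
-/

set_option autoImplicit false

open CategoryTheory AlgebraicGeometry
open Pool.Agent.Y116.UV Pool.Agent.Q193.LT Pool.Agent.V5helper77.GW Pool.Agent.V5helper48.WC

namespace Pool.Agent.Results.MP_56c18a_ag.WeightComplexes

/-- **The sign conjecture and the weight complexes of trilinear cubics.** -/
theorem result {k : Type} [Field k] [PerfectField k] (hA : DeJong k) (T : ChowData k)
    (hT : IsChowTheory IsSmProper T) (ht : HasTransfer T) {F : Type} [Field F]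
    (H : Cohomology T F) (hH : IsCohomology H) :
    (∀ n : ℕ, ((∀ X : Sch k, IsSmProper X → topologicalKrullDim X.left ≤ n → CPlus H (T.h X)) ↔
        ∀ X : Sch k, FT True X → topologicalKrullDim X.left ≤ n → T.Built (CPlus H) X) ∧
      ((∀ X : Sch k, IsSmProper X → topologicalKrullDim X.left ≤ n → CPlus H (T.h X)) ↔
        ∀ (a b c : ℕ) (R : Fin a → Fin b → Fin c → k), (a ≤ n + 2 ∨ b ≤ n + 2 ∨ c ≤ n + 2) →
          T.Built (CPlus H) (hypS R))) ∧
    ((∀ X : Sch k, IsSmProper X → topologicalKrullDim X.left ≤ 2 → CPlus H (T.h X)) →
      ∀ (a b c : ℕ) (R : Fin a → Fin b → Fin c → k), (a ≤ 4 ∨ b ≤ 4 ∨ c ≤ 4) →
        T.Built (CPlus H) (hypS R)) ∧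
    (Frac k → ((∀ X : Sch k, IsSmProper X → CPlus H (T.h X)) ↔
      ∀ (a b c : ℕ) (G : Finset (Fin a × Fin b × Fin c)), T.Built (CPlus H) (tripS k G))) := by
  have hS := cPlus_stable hT hH
  have hd := deJong_devissage hT ht hS hA
  have h1 : ∀ X : Sch k, IsSmProj X → IsSmProper X := fun X hX => .of_smProj hX
  have h2 : ∀ X : Sch k, IsSmProper X → FT True X := fun X hX => hX.ft
  refine ⟨fun n => graded_of hT hS h1 h2 n (hd n), fun h => ?_, fun hk =>
    graphs_of hk hT hS h1 h2 hd⟩
  exact (graded_of hT hS h1 h2 2 (hd 2)).2.mp (by exact_mod_cast h)

end Pool.Agent.Results.MP_56c18a_ag.WeightComplexes
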